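import Pool.Agent.Zk29.Po.E
import Pool.Agent.Zk29.Mu.G1

/-!
# Joint continuity of the iterates
-/

set_option autoImplicit false

open Filter Topology Metric Set Polynomial
open scoped OnePoint

namespace Pool.Agent.Zk9.Po

open Pool.Agent.H792R2.CE Pool.Agent.H792R2.CE.C1x
open Pool.Agent.Helper114.Herman
open Pool.Agent.Zk29.Mu (Cf pl_coeff pl_deg pl_zero hom_add hom_pl_cont deg_add)

theorem chart {d : ℕ} {P Q : ℂ[X]} (hd : 0 < d) (hc : IsCoprime P Q)
    (hPd : P.natDegree ≤ d) (hQd : Q.natDegree ≤ d) (hmax : d = max P.natDegree Q.natDegree)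
    {a b : ℂ → ℂ} (ha : Continuous a)
    (hb : Continuous b) (hab : ∀ w, a w ≠ 0 ∨ b w ≠ 0) (w : ℂ) :
    ContinuousAt (fun p : Cf d × ℂ =>
      sph d (P + Zk29.Mu.pl p.1.1) (Q + Zk29.Mu.pl p.1.2) (pr (a p.2) (b p.2))) (0, w) := by
  have h1 : (fun p : Cf d × ℂ => sph d (P + Zk29.Mu.pl p.1.1) (Q + Zk29.Mu.pl p.1.2)
      (pr (a p.2) (b p.2))) =
      (fun q : ℂ × ℂ => pr q.1 q.2) ∘ fun p : Cf d × ℂ =>
        (hom P d (a p.2) (b p.2) + hom (Zk29.Mu.pl p.1.1) d (a p.2) (b p.2),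
          hom Q d (a p.2) (b p.2) + hom (Zk29.Mu.pl p.1.2) d (a p.2) (b p.2)) := by
    funext p
    rw [B2x.sph_pr (deg_add hPd _) (deg_add hQd _) (hab _), hom_add, hom_add]
    simp only [Function.comp_apply]
  rw [h1]
  have hnb := hom_not_both hc hmax (hab w) hd
  have hcc : ∀ R : ℂ[X], Continuous fun p : Cf d × ℂ => hom R d (a p.2) (b p.2) := fun R =>
    (continuous_hom R d).comp ((ha.comp continuous_snd).prodMk (hb.comp continuous_snd))
  have hc1 : Continuous fun p : Cf d × ℂ => hom (Zk29.Mu.pl p.1.1) d (a p.2) (b p.2) :=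
    Continuous.comp (g := fun p : (Fin (d + 1) → ℂ) × (ℂ × ℂ) =>
        hom (Zk29.Mu.pl p.1) d p.2.1 p.2.2)
      (f := fun p : Cf d × ℂ => (p.1.1, (a p.2, b p.2))) hom_pl_cont
      ((continuous_fst.comp continuous_fst).prodMk
      ((ha.comp continuous_snd).prodMk (hb.comp continuous_snd)))
  have hc2 : Continuous fun p : Cf d × ℂ => hom (Zk29.Mu.pl p.1.2) d (a p.2) (b p.2) :=
    Continuous.comp (g := fun p : (Fin (d + 1) → ℂ) × (ℂ × ℂ) =>
        hom (Zk29.Mu.pl p.1) d p.2.1 p.2.2)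
      (f := fun p : Cf d × ℂ => (p.1.2, (a p.2, b p.2))) hom_pl_cont
      ((continuous_snd.comp continuous_fst).prodMk
      ((ha.comp continuous_snd).prodMk (hb.comp continuous_snd)))
  refine ContinuousAt.comp ?_ ((((hcc P).add hc1).prodMk ((hcc Q).add hc2)).continuousAt)
  have h2 := continuousAt_pr hnb
  have e0 : ∀ u v : ℂ, hom (Zk29.Mu.pl (0 : Fin (d + 1) → ℂ)) d u v = 0 := by
    intro u v
    rw [pl_zero]
    simp [hom]
  simp only [Prod.fst_zero, Prod.snd_zero, e0, add_zero]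
  exact h2

theorem step {d : ℕ} {P Q : ℂ[X]} (hd : 0 < d) (hc : IsCoprime P Q)
    (hPd : P.natDegree ≤ d) (hQd : Q.natDegree ≤ d) (hmax : d = max P.natDegree Q.natDegree)
    (x : OnePoint ℂ) :
    ContinuousAt (fun p : Cf d × OnePoint ℂ =>
      sph d (P + Zk29.Mu.pl p.1.1) (Q + Zk29.Mu.pl p.1.2) p.2) (0, x) := by
  have main : ∀ (e : ℂ → OnePoint ℂ) (a b : ℂ → ℂ), IsOpenEmbedding e → Continuous a →
      Continuous b → (∀ w, a w ≠ 0 ∨ b w ≠ 0) → (∀ w, e w = pr (a w) (b w)) → ∀ w : ℂ,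
      ContinuousAt (fun p : Cf d × OnePoint ℂ =>
        sph d (P + Zk29.Mu.pl p.1.1) (Q + Zk29.Mu.pl p.1.2) p.2) (0, e w) := by
    intro e a b he ha hb hab hee w
    have h1 : IsOpenEmbedding (Prod.map (id : Cf d → Cf d) e) := IsOpenEmbedding.id.prodMap he
    have h2 := h1.continuousAt_iff (g := fun p : Cf d × OnePoint ℂ =>
        sph d (P + Zk29.Mu.pl p.1.1) (Q + Zk29.Mu.pl p.1.2) p.2) (x := ((0 : Cf d), w))
    refine h2.1 ?_
    have h3 := chart hd hc hPd hQd hmax ha hb hab w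
    refine h3.congr (Eventually.of_forall fun p => ?_)
    simp [hee]
  induction x using OnePoint.rec with
  | infty =>
    have he : IsOpenEmbedding (fun w : ℂ => sinv (w : OnePoint ℂ)) :=
      sinvHomeo.isOpenEmbedding.comp OnePoint.isOpenEmbedding_coe
    have := main _ (fun _ => 1) (fun w => w) he continuous_const continuous_id
      (fun w => Or.inl one_ne_zero) (fun w => by rw [← pr_one w, sinv_pr (Or.inr one_ne_zero)]) 0
    simpa [sinv_zero] using this
  | coe z =>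
    exact main _ (fun w => w) (fun _ => 1) OnePoint.isOpenEmbedding_coe continuous_id
      continuous_const (fun w => Or.inr one_ne_zero) (fun w => (pr_one w).symm) z

/-- Joint continuity of the iterates (general form). -/
theorem joint_gen {d : ℕ} {P Q : ℂ[X]} (hd : 0 < d) (hc : IsCoprime P Q)
    (hPd : P.natDegree ≤ d) (hQd : Q.natDegree ≤ d) (hmax : d = max P.natDegree Q.natDegree)
    (n : ℕ) (x : OnePoint ℂ) :
    ContinuousAt (fun p : Cf d × OnePoint ℂ =>
      (sph d (P + Zk29.Mu.pl p.1.1) (Q + Zk29.Mu.pl p.1.2))^[n] p.2) (0, x) := by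
  induction n with
  | zero => exact continuousAt_snd
  | succ n ih =>
    have h1 : (fun p : Cf d × OnePoint ℂ =>
        (sph d (P + Zk29.Mu.pl p.1.1) (Q + Zk29.Mu.pl p.1.2))^[n + 1] p.2) =
        (fun p : Cf d × OnePoint ℂ => sph d (P + Zk29.Mu.pl p.1.1) (Q + Zk29.Mu.pl p.1.2) p.2) ∘
          fun p : Cf d × OnePoint ℂ =>
            (p.1, (sph d (P + Zk29.Mu.pl p.1.1) (Q + Zk29.Mu.pl p.1.2))^[n] p.2) := by
      funext p
      simp [Function.iterate_succ_apply']
    rw [h1]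
    exact ContinuousAt.comp (step hd hc hPd hQd hmax _) (continuousAt_fst.prodMk ih)

theorem joint : Zk29.Po.S_JOINT := by
  intro d T hd hT n x
  have h1 := joint_gen (d := d) (P := T) (Q := 1) (by omega) isCoprime_one_right hT.le
    (by simp) (by rw [hT]; simp) n x
  have h2 : ContinuousAt (fun p : (Fin (d + 1) → ℂ) × OnePoint ℂ => (((p.1, 0), p.2) :
      Cf d × OnePoint ℂ)) (0, x) :=
    ((continuous_fst.prodMk continuous_const).prodMk continuous_snd).continuousAt
  have h3 := ContinuousAt.comp (f := fun p : (Fin (d + 1) → ℂ) × OnePoint ℂ =>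
    (((p.1, 0), p.2) : Cf d × OnePoint ℂ)) (x := ((0 : Fin (d + 1) → ℂ), x)) h1 h2
  refine h3.congr (Eventually.of_forall fun p => ?_)
  simp only [Function.comp_apply, pl_zero, add_zero]
  rfl

end Pool.Agent.Zk9.Po
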