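import Pool.Agent.Zk29.Po.D

/-!
# The regions for a polynomial
-/

set_option autoImplicit false
set_option linter.all false
open Set Filter Topology Metric Polynomial
open scoped OnePoint

namespace Pool.Agent.Zk9.Po

open Pool.Agent.H792R2.CE Pool.Agent.H792R2.CE.C2x Pool.Agent.Zk29.Rat Pool.Agent.Zk29.Po
open Pool.Agent.H713R5.QJ (ev Good opg_holds)

theorem hasDeriv_iter (Q : ℂ[X]) (k : ℕ) (w : ℂ) : HasDerivAt ((ev Q)^[k])
    (∏ i ∈ Finset.range k, (derivative Q).eval ((ev Q)^[i] w)) w := by
  induction k with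
  | zero =>
    rw [Finset.prod_range_zero]
    exact hasDerivAt_id w
  | succ k ih =>
    rw [Finset.prod_range_succ, mul_comm, Function.iterate_succ']
    exact HasDerivAt.comp w (Q.hasDerivAt ((ev Q)^[k] w)) ih

theorem good_of_step (T : ℂ[X]) (z : ℂ) (h : Good (ev T) (ev T z)) : Good (ev T) z := by
  rcases h with h | ⟨P, hP, w, h1, h2, h3⟩
  · left
    rw [← tendsto_add_atTop_iff_nat 1]
    exact h
  · right
    obtain ⟨q, rfl⟩ : ∃ q, P = q + 1 := ⟨P - 1, by omega⟩
    refine ⟨q + 1, hP, (ev T)^[q] w, ?_, ?_, ?_⟩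
    · rw [← Function.iterate_add_apply, add_comm, Function.iterate_add_apply, h1]
    · have hfw : (ev T) ((ev T)^[q] w) = w := by
        rw [← Function.iterate_succ_apply' (ev T) q w, h1]
      rw [(hasDeriv_iter T (q + 1) _).deriv, Finset.prod_range_succ']
      rw [(hasDeriv_iter T (q + 1) _).deriv, Finset.prod_range_succ] at h2
      have h4 : ∀ i ∈ Finset.range q, (derivative T).eval ((ev T)^[i + 1] ((ev T)^[q] w)) =
          (derivative T).eval ((ev T)^[i] w) := by
        intro i _
        rw [Function.iterate_succ_apply, hfw]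
      rw [Finset.prod_congr rfl h4]
      exact h2
    · rw [← tendsto_add_atTop_iff_nat 1]
      have hc : Continuous ((ev T)^[q]) := by
        have : Continuous (ev T) := T.continuous
        exact this.iterate q
      have h5 := (hc.tendsto w).comp h3
      refine h5.congr fun k => ?_
      simp only [Function.comp_apply]
      rw [← Function.iterate_add_apply, ← Function.iterate_succ_apply]
      congr 1
      rw [Nat.succ_eq_add_one]
      ring

theorem reg (h1 : S_TRAP) (h2 : S_CPT) (h3 : S_DISC) : S_REG := by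
  intro T hd hsim
  have hT' : derivative T ≠ 0 := by
    intro h0
    have := natDegree_eq_zero_of_derivative_eq_zero h0
    omega
  have hKc : IsCompact {z : ℂ | ¬ Good (ev T) z} := h2 T hd
  obtain ⟨O, hO⟩ : ∃ O : Set ℂ, O = {z | (derivative T).eval z = 0 → z ∈ Fp T} := ⟨_, rfl⟩
  have hOo : IsOpen O := by
    have e1 : Oᶜ = (((derivative T).roots.toFinset : Set ℂ) \ Fp T) := by
      ext z
      rw [hO]
      simp only [mem_compl_iff, mem_setOf_eq, not_forall, Finset.mem_coe,
        Multiset.mem_toFinset, mem_roots hT', IsRoot.def, Set.mem_sdiff]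
      constructor
      · rintro ⟨h4, h5⟩; exact ⟨h4, h5⟩
      · rintro ⟨h4, h5⟩; exact ⟨h4, h5⟩
    rw [← isClosed_compl_iff, e1]
    exact ((Finset.finite_toSet _).subset sdiff_subset).isClosed
  have hKO : {z : ℂ | ¬ Good (ev T) z} ⊆ O := by
    intro z hz
    rw [hO]
    exact fun h => ⟨h, hz⟩
  obtain ⟨δ, hδ, hδs⟩ := hKc.exists_cthickening_subset_open hOo hKO
  obtain ⟨U, hT, hUN, hUk, hUb⟩ := h1 T hd (thickening δ {z : ℂ | ¬ Good (ev T) z})
    isOpen_thickening hKc.isBounded.thickening (fun z hz => self_subset_thickening hδ _ hz)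
  obtain ⟨δ₁, hδ₁, hδ₁s⟩ := hKc.exists_cthickening_subset_open hT.opn (fun z hz => hUk z hz)
  have hclU : closure U ⊆ O := by
    refine (closure_mono hUN).trans ?_
    exact (closure_thickening_subset_cthickening _ _).trans hδs
  refine ⟨U, thickening δ₁ {z : ℂ | ¬ Good (ev T) z}, hd, ?_, ?_, ?_, ?_, hKc, hT, hUb, ?_, ?_,
    isOpen_thickening, ?_, ?_⟩
  · refine ⟨le_rfl, ?_, Or.inl ?_, ?_, one_ne_zero, isCoprime_one_right⟩
    · simp
    · rw [coeff_natDegree, Ne, leadingCoeff_eq_zero]
      rintro rfl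
      simp at hd
    · rw [Zk29.Po.wr_one]; exact hT'
  · rw [Fa_one, Zk29.Po.wr_one]
    exact hsim
  · intro z hz
    refine ⟨by simp, ?_⟩
    rw [rf_one']
    exact fun h => hz (good_of_step T z h)
  · intro v m ρ hv hm hρ _ h5 h6
    rw [rf_one'] at h5 h6
    exact hv (h3 T v m ρ hm hρ h5 h6)
  · intro z _
    simp
  · intro z hz h
    rw [Fa_one]
    rw [Zk29.Po.wr_one] at h
    have := hclU hz
    rw [hO] at this
    exact this h
  · exact (closure_thickening_subset_cthickening _ _).trans hδ₁s
  · intro z hz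
    exact self_subset_thickening hδ₁ _ hz

end Pool.Agent.Zk9.Po
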